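import Mathlib
import Pool.Agent.H762R2.RtC

/-!
Functions `κ (s(x) ^ n β(x))` with `|s(0)| < 1`, `κ(0) = 0` are contractions of small discs.
-/

set_option autoImplicit false

open Set Filter Topology
open scoped OnePoint NNReal

namespace Pool.Agent.R145.ZN

open Pool.Agent.H762R2.Rt

theorem contraction {s β κ : ℂ → ℂ} (hs : ContDiffAt ℂ 1 s 0) (hβ : ContDiffAt ℂ 1 β 0)
    (hκ : ContDiffAt ℂ 1 κ 0) (hs0 : ‖s 0‖ < 1) (hκ0 : κ 0 = 0) {η₀ : ℝ} (hη₀ : 0 < η₀) :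
    ∃ r0 : ℝ, 0 < r0 ∧ ∀ r, 0 < r → r ≤ r0 → ∀ᶠ n : ℕ in atTop,
      (∀ x, ‖x‖ ≤ r → ‖s x ^ n * β x‖ ≤ η₀) ∧
      (∀ x, ‖x‖ ≤ r → ‖κ (s x ^ n * β x)‖ < r) ∧
      ∀ x y, ‖x‖ ≤ r → ‖y‖ ≤ r →
        ‖κ (s x ^ n * β x) - κ (s y ^ n * β y)‖ ≤ (1 / 2) * ‖x - y‖ := by
  obtain ⟨Ks, ts, hts, hLs⟩ := hs.exists_lipschitzOnWith
  obtain ⟨Kb, tb, htb, hLb⟩ := hβ.exists_lipschitzOnWith
  obtain ⟨Kk, tk, htk, hLk⟩ := hκ.exists_lipschitzOnWith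
  set ρ := (‖s 0‖ + 1) / 2 with hρ
  have hρ0 : 0 < ρ := by have := norm_nonneg (s 0); positivity
  have hρ1 : ρ < 1 := by rw [hρ]; linarith
  have hcs : ∀ᶠ x in 𝓝 (0 : ℂ), ‖s x‖ < ρ :=
    hs.continuousAt.norm.eventually_lt_const (by rw [hρ]; linarith)
  have hcb : ∀ᶠ x in 𝓝 (0 : ℂ), ‖β x‖ < ‖β 0‖ + 1 :=
    hβ.continuousAt.norm.eventually_lt_const (by linarith)
  obtain ⟨η, hη, hηk⟩ := Metric.nhds_basis_closedBall.mem_iff.1 htk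
  obtain ⟨r0, hr0, hr⟩ := Metric.nhds_basis_closedBall.mem_iff.1
    (inter_mem (inter_mem hts htb) (inter_mem hcs hcb))
  set C := ‖β 0‖ + 1 with hC
  have hC0 : 0 < C := by have := norm_nonneg (β 0); positivity
  refine ⟨r0, hr0, fun r hr1 hr2 => ?_⟩
  have hmem : ∀ x : ℂ, ‖x‖ ≤ r → x ∈ ts ∧ x ∈ tb ∧ ‖s x‖ ≤ ρ ∧ ‖β x‖ ≤ C := by
    intro x hx
    have h1 := hr (show x ∈ Metric.closedBall (0 : ℂ) r0 by
      rw [mem_closedBall_zero_iff]; exact hx.trans hr2)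
    exact ⟨h1.1.1, h1.1.2, le_of_lt h1.2.1, le_of_lt h1.2.2⟩
  have t1 : Tendsto (fun n : ℕ => ρ ^ n) atTop (𝓝 0) :=
    tendsto_pow_atTop_nhds_zero_of_lt_one hρ0.le hρ1
  have t2 : Tendsto (fun n : ℕ => (n : ℝ) * ρ ^ n) atTop (𝓝 0) :=
    tendsto_self_mul_const_pow_of_lt_one hρ0.le hρ1
  have e1 : ∀ᶠ n : ℕ in atTop, ρ ^ n * C < η := by
    have := t1.mul_const C
    rw [zero_mul] at this
    exact this.eventually_lt_const hη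
  have e0 : ∀ᶠ n : ℕ in atTop, ρ ^ n * C < η₀ := by
    have := t1.mul_const C
    rw [zero_mul] at this
    exact this.eventually_lt_const hη₀
  have e2 : ∀ᶠ n : ℕ in atTop, Kk * (ρ ^ n * C) < r := by
    have := (t1.mul_const C).const_mul (Kk : ℝ)
    rw [zero_mul, mul_zero] at this
    exact this.eventually_lt_const hr1
  have e3 : ∀ᶠ n : ℕ in atTop,
      Kk * (ρ ^ n * Kb + C * ((n : ℝ) * ρ ^ n * ρ⁻¹ * Ks)) < 1 / 2 := by
    have := ((t1.mul_const (Kb : ℝ)).add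
      (((t2.mul_const ρ⁻¹).mul_const (Ks : ℝ)).const_mul C)).const_mul (Kk : ℝ)
    simp only [zero_mul, mul_zero, add_zero] at this
    exact this.eventually_lt_const (by norm_num)
  filter_upwards [e1, e2, e3, eventually_ge_atTop 1, e0] with n h1 h2 h3 hn h0
  have hin : ∀ x : ℂ, ‖x‖ ≤ r → ‖s x ^ n * β x‖ ≤ ρ ^ n * C := by
    intro x hx
    obtain ⟨-, -, g1, g2⟩ := hmem x hx
    rw [norm_mul, norm_pow]
    gcongr
  have hink : ∀ x : ℂ, ‖x‖ ≤ r → s x ^ n * β x ∈ tk := by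
    intro x hx
    refine hηk ?_
    rw [mem_closedBall_zero_iff]
    exact (hin x hx).trans h1.le
  have h0k : (0 : ℂ) ∈ tk := hηk (by simp [hη.le])
  refine ⟨fun x hx => (hin x hx).trans h0.le, ?_, ?_⟩
  · intro x hx
    have g1 := hLk.dist_le_mul _ (hink x hx) _ h0k
    rw [hκ0, dist_zero_right, dist_zero_right] at g1
    refine g1.trans_lt (lt_of_le_of_lt ?_ h2)
    have := hin x hx
    gcongr
  · intro x y hx hy
    have g1 := hLk.dist_le_mul _ (hink x hx) _ (hink y hy)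
    rw [dist_eq_norm, dist_eq_norm] at g1
    obtain ⟨x1, x2, x3, x4⟩ := hmem x hx
    obtain ⟨y1, y2, y3, y4⟩ := hmem y hy
    have g2 := hLs.dist_le_mul _ x1 _ y1
    have g3 := hLb.dist_le_mul _ x2 _ y2
    rw [dist_eq_norm, dist_eq_norm] at g2 g3
    have g4 := pow_lip x3 y3 n
    have g5 : ρ ^ (n - 1) = ρ ^ n * ρ⁻¹ := by
      obtain ⟨m, rfl⟩ : ∃ m, n = m + 1 := ⟨n - 1, by omega⟩
      rw [Nat.add_sub_cancel, pow_succ, mul_assoc, mul_inv_cancel₀ hρ0.ne', mul_one]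
    have g6 : ‖s x ^ n * β x - s y ^ n * β y‖
        ≤ (ρ ^ n * Kb + C * ((n : ℝ) * ρ ^ n * ρ⁻¹ * Ks)) * ‖x - y‖ := by
      have e : s x ^ n * β x - s y ^ n * β y
          = s x ^ n * (β x - β y) + (s x ^ n - s y ^ n) * β y := by ring
      rw [e]
      refine (norm_add_le _ _).trans ?_
      rw [norm_mul, norm_mul, norm_pow]
      have k1 : ‖s x‖ ^ n * ‖β x - β y‖ ≤ ρ ^ n * (Kb * ‖x - y‖) := by gcongr
      have k2 : ‖s x ^ n - s y ^ n‖ * ‖β y‖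
          ≤ ((n : ℝ) * (ρ ^ n * ρ⁻¹) * (Ks * ‖x - y‖)) * C := by
        refine mul_le_mul (g4.trans ?_) y4 (norm_nonneg _) (by positivity)
        rw [g5]
        gcongr
      calc _ ≤ ρ ^ n * (Kb * ‖x - y‖)
            + ((n : ℝ) * (ρ ^ n * ρ⁻¹) * (Ks * ‖x - y‖)) * C := add_le_add k1 k2
        _ = _ := by ring
    calc ‖κ (s x ^ n * β x) - κ (s y ^ n * β y)‖ ≤ Kk * ‖s x ^ n * β x - s y ^ n * β y‖ := g1
      _ ≤ Kk * ((ρ ^ n * Kb + C * ((n : ℝ) * ρ ^ n * ρ⁻¹ * Ks)) * ‖x - y‖) := by gcongr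
      _ = (Kk * (ρ ^ n * Kb + C * ((n : ℝ) * ρ ^ n * ρ⁻¹ * Ks))) * ‖x - y‖ := by ring
      _ ≤ (1 / 2) * ‖x - y‖ := by gcongr

end Pool.Agent.R145.ZN
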