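import Mathlib

/-!
Critical points of `z ^ n A(z) / B(z)`.
-/

set_option autoImplicit false

open Set Filter Topology Polynomial

namespace Pool.Agent.R145.ZN

/-- the equation of the critical points; `ν = n` -/
def CritEq (A B : ℂ[X]) (ν z : ℂ) : Prop :=
  ν * (A.eval z * B.eval z) + z * (A.derivative.eval z * B.eval z - A.eval z * B.derivative.eval z)
    = 0

theorem CritEq.symm {A B : ℂ[X]} {ν z : ℂ} (h : CritEq A B ν z) : CritEq B A (-ν) z := by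
  unfold CritEq at h ⊢
  linear_combination -h

/-- away from the roots -/
theorem log_bound (A : ℂ[X]) (hA : A ≠ 0) {δ : ℝ} (hδ : 0 < δ) :
    ∃ K : ℝ, 0 ≤ K ∧ ∀ z : ℂ, (∀ e, A.eval e = 0 → δ ≤ ‖z - e‖) →
      ‖z * A.derivative.eval z‖ ≤ K * ‖A.eval z‖ := by
  have key : ∀ s : Multiset ℂ, ∃ K : ℝ, 0 ≤ K ∧ ∀ z : ℂ, (∀ e ∈ s, δ ≤ ‖z - e‖) →
      ‖z * (derivative (s.map (fun a => X - C a)).prod).eval z‖
        ≤ K * ‖((s.map (fun a => X - C a)).prod).eval z‖ := by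
    intro s
    induction s using Multiset.induction with
    | empty => exact ⟨0, le_refl _, fun z _ => by simp⟩
    | cons a s ih =>
      obtain ⟨K, hK0, hK⟩ := ih
      refine ⟨K + (1 + ‖a‖ / δ), by positivity, fun z hz => ?_⟩
      have h1 := hK z fun e he => hz e (Multiset.mem_cons_of_mem he)
      have h2 := hz a (Multiset.mem_cons_self a s)
      set p := (s.map (fun a => X - C a)).prod with hp
      rw [Multiset.map_cons, Multiset.prod_cons, ← hp]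
      simp only [derivative_mul, derivative_sub, derivative_X, derivative_C, sub_zero, one_mul,
        eval_add, eval_mul, eval_sub, eval_X, eval_C]
      have h3 : ‖z‖ ≤ (1 + ‖a‖ / δ) * ‖z - a‖ := by
        have e1 : ‖z‖ ≤ ‖z - a‖ + ‖a‖ := by
          calc ‖z‖ = ‖z - a + a‖ := by rw [sub_add_cancel]
            _ ≤ _ := norm_add_le _ _
        have e2 : ‖a‖ ≤ ‖a‖ / δ * ‖z - a‖ := by
          rw [div_mul_eq_mul_div, le_div_iff₀ hδ]
          gcongr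
        linarith
      rw [mul_add]
      refine (norm_add_le _ _).trans ?_
      have e3 : ‖z * eval z p‖ ≤ (1 + ‖a‖ / δ) * (‖z - a‖ * ‖eval z p‖) := by
        rw [norm_mul, ← mul_assoc]
        gcongr
      have e4 : ‖z * ((z - a) * eval z (derivative p))‖ ≤ K * (‖z - a‖ * ‖eval z p‖) := by
        have : z * ((z - a) * eval z (derivative p)) = (z - a) * (z * eval z (derivative p)) := by
          ring
        rw [this, norm_mul]
        calc ‖z - a‖ * ‖z * eval z (derivative p)‖ ≤ ‖z - a‖ * (K * ‖eval z p‖) := by gcongr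
          _ = _ := by ring
      rw [norm_mul (z - a)]
      linarith
  obtain ⟨K, hK0, hK⟩ := key A.roots
  refine ⟨K, hK0, fun z hz => ?_⟩
  have hs := (IsAlgClosed.splits A).eq_prod_roots
  have h1 := hK z fun e he => hz e ((mem_roots hA).1 he)
  set p := (A.roots.map (fun a => X - C a)).prod with hp
  rw [hs, derivative_C_mul, eval_mul, eval_mul, eval_C]
  have e : z * (A.leadingCoeff * eval z (derivative p))
      = A.leadingCoeff * (z * eval z (derivative p)) := by ring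
  rw [e, norm_mul A.leadingCoeff, norm_mul A.leadingCoeff (eval z p)]
  calc ‖A.leadingCoeff‖ * ‖z * eval z (derivative p)‖
      ≤ ‖A.leadingCoeff‖ * (K * ‖eval z p‖) := by gcongr
    _ = _ := by ring

/-- critical points are near the roots -/
theorem far {A B : ℂ[X]} (hA : A ≠ 0) (hB : B ≠ 0) {δ : ℝ} (hδ : 0 < δ) :
    ∃ K : ℝ, ∀ ν z : ℂ, (∀ e, A.eval e = 0 ∨ B.eval e = 0 → δ ≤ ‖z - e‖) →
      A.eval z ≠ 0 → B.eval z ≠ 0 → CritEq A B ν z → ‖ν‖ ≤ K := by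
  obtain ⟨K1, hK10, hK1⟩ := log_bound A hA hδ
  obtain ⟨K2, hK20, hK2⟩ := log_bound B hB hδ
  refine ⟨K1 + K2, fun ν z hz hAz hBz h => ?_⟩
  have h1 := hK1 z fun e he => hz e (Or.inl he)
  have h2 := hK2 z fun e he => hz e (Or.inr he)
  have hpos : 0 < ‖A.eval z‖ * ‖B.eval z‖ := mul_pos (norm_pos_iff.2 hAz) (norm_pos_iff.2 hBz)
  have h3 : ν * (A.eval z * B.eval z)
      = -(z * A.derivative.eval z) * B.eval z + A.eval z * (z * B.derivative.eval z) := by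
    unfold CritEq at h
    linear_combination h
  have h4 : ‖ν‖ * (‖A.eval z‖ * ‖B.eval z‖) ≤ (K1 + K2) * (‖A.eval z‖ * ‖B.eval z‖) := by
    rw [← norm_mul, ← norm_mul, h3]
    refine (norm_add_le _ _).trans ?_
    rw [norm_mul, norm_mul, norm_neg, norm_mul (A.eval z) (B.eval z)]
    have e1 : ‖z * A.derivative.eval z‖ * ‖B.eval z‖ ≤ K1 * ‖A.eval z‖ * ‖B.eval z‖ := by gcongr
    have e2 : ‖A.eval z‖ * ‖z * B.derivative.eval z‖ ≤ ‖A.eval z‖ * (K2 * ‖B.eval z‖) := by gcongr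
    linarith
  exact le_of_mul_le_mul_right h4 hpos

/-- near a root of `B` -/
theorem near_root {A B : ℂ[X]} {e : ℂ} (hB0 : B ≠ 0) (hBe : B.eval e = 0) (hAe : A.eval e ≠ 0)
    (he : e ≠ 0) : ∃ δ : ℝ, 0 < δ ∧ ∃ c : ℝ, 0 < c ∧ ∃ m : ℕ, ∀ (n : ℝ) (ν z : ℂ), 1 ≤ n →
      ‖ν‖ ≤ n → ‖z - e‖ < δ → B.eval z ≠ 0 → CritEq A B ν z → c ≤ n ^ m * ‖B.eval z‖ := by
  obtain ⟨B1, hB1, hnd⟩ := exists_eq_pow_rootMultiplicity_mul_and_not_dvd B hB0 e
  have hm : 0 < rootMultiplicity e B := (rootMultiplicity_pos hB0).2 hBe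
  obtain ⟨k, hk⟩ : ∃ k, rootMultiplicity e B = k + 1 := ⟨_, (Nat.succ_pred_eq_of_pos hm).symm⟩
  rw [hk] at hB1
  have hB1e : B1.eval e ≠ 0 := by
    intro h
    exact hnd (dvd_iff_isRoot.2 h)
  -- continuity
  set c1 := ‖e‖ * ‖A.eval e‖ * ‖B1.eval e‖ / 2 with hc1
  have hc10 : 0 < c1 := by
    have := norm_pos_iff.2 he
    have := norm_pos_iff.2 hAe
    have := norm_pos_iff.2 hB1e
    positivity
  have f1 : ∀ᶠ z in 𝓝 e, c1 < ‖z‖ * ‖A.eval z‖ * ‖B1.eval z‖ := by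
    have hc : Continuous fun z : ℂ => ‖z‖ * ‖A.eval z‖ * ‖B1.eval z‖ :=
      (continuous_norm.mul A.continuous.norm).mul B1.continuous.norm
    refine hc.continuousAt.eventually_const_lt ?_
    rw [hc1]
    linarith
  set C1 := ‖A.eval e‖ * ‖B1.eval e‖ + 1 with hC1
  have f2 : ∀ᶠ z in 𝓝 e, ‖A.eval z‖ * ‖B1.eval z‖ < C1 := by
    have hc : Continuous fun z : ℂ => ‖A.eval z‖ * ‖B1.eval z‖ :=
      A.continuous.norm.mul B1.continuous.norm
    refine hc.continuousAt.eventually_lt_const ?_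
    rw [hC1]
    linarith
  set C2 := ‖e * (A.derivative.eval e * B1.eval e - A.eval e * B1.derivative.eval e)‖ + 1 with hC2
  have f3 : ∀ᶠ z in 𝓝 e,
      ‖z * (A.derivative.eval z * B1.eval z - A.eval z * B1.derivative.eval z)‖ < C2 := by
    have hc : Continuous fun z : ℂ =>
        ‖z * (A.derivative.eval z * B1.eval z - A.eval z * B1.derivative.eval z)‖ :=
      (continuous_id.mul ((A.derivative.continuous.mul B1.continuous).sub
        (A.continuous.mul B1.derivative.continuous))).norm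
    refine hc.continuousAt.eventually_lt_const ?_
    rw [hC2]
    linarith
  have f4 : ∀ᶠ z in 𝓝 e, ‖B1.eval e‖ / 2 < ‖B1.eval z‖ := by
    refine B1.continuous.norm.continuousAt.eventually_const_lt ?_
    have := norm_pos_iff.2 hB1e
    linarith
  have hC10 : 0 < C1 := by positivity
  have hC20 : 0 < C2 := by positivity
  obtain ⟨δ, hδ, hball⟩ := Metric.eventually_nhds_iff.1 (f1.and (f2.and (f3.and f4)))
  have hb1 : 0 < ‖B1.eval e‖ := norm_pos_iff.2 hB1e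
  refine ⟨δ, hδ, (c1 / (C1 + C2)) ^ (k + 1) * (‖B1.eval e‖ / 2), by positivity, k + 1,
    fun n ν z hn hν hz hBz h => ?_⟩
  obtain ⟨g1, g2, g3, g4⟩ := hball (show dist z e < δ by rwa [dist_eq_norm])
  have hBz' : B.eval z = (z - e) ^ (k + 1) * B1.eval z := by
    conv_lhs => rw [hB1]
    simp
  have hBd : B.derivative.eval z
      = (k + 1) * (z - e) ^ k * B1.eval z + (z - e) ^ (k + 1) * B1.derivative.eval z := by
    conv_lhs => rw [hB1]
    simp [derivative_mul, derivative_pow]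
  have ht : z - e ≠ 0 := by
    intro h0
    rw [hBz', h0] at hBz
    simp at hBz
  have h1 : z * A.eval z * (k + 1) * B1.eval z
      = (z - e) * (ν * (A.eval z * B1.eval z)
        + z * (A.derivative.eval z * B1.eval z - A.eval z * B1.derivative.eval z)) := by
    unfold CritEq at h
    rw [hBz', hBd] at h
    have h2 : (z - e) ^ k * ((z - e) * (ν * (A.eval z * B1.eval z)
        + z * (A.derivative.eval z * B1.eval z - A.eval z * B1.derivative.eval z))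
        - z * A.eval z * (k + 1) * B1.eval z) = 0 := by
      rw [← h]
      ring
    rcases mul_eq_zero.1 h2 with h3 | h3
    · exact absurd h3 (pow_ne_zero _ ht)
    · exact (sub_eq_zero.1 h3).symm
  have h2 : c1 ≤ ‖z - e‖ * (n * (C1 + C2)) := by
    have e1 : c1 ≤ ‖z * A.eval z * (k + 1) * B1.eval z‖ := by
      rw [norm_mul, norm_mul, norm_mul]
      have : (1 : ℝ) ≤ ‖((k : ℂ) + 1)‖ := by
        have : ((k : ℂ) + 1) = ((k + 1 : ℕ) : ℂ) := by push_cast; ring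
        rw [this, Complex.norm_natCast]
        push_cast
        have : (0 : ℝ) ≤ k := Nat.cast_nonneg k
        linarith
      calc c1 ≤ ‖z‖ * ‖A.eval z‖ * 1 * ‖B1.eval z‖ := by linarith
        _ ≤ ‖z‖ * ‖A.eval z‖ * ‖((k : ℂ) + 1)‖ * ‖B1.eval z‖ := by gcongr
    rw [h1, norm_mul] at e1
    refine e1.trans ?_
    have e2 : ‖ν * (A.eval z * B1.eval z)
        + z * (A.derivative.eval z * B1.eval z - A.eval z * B1.derivative.eval z)‖
        ≤ n * (C1 + C2) := by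
      refine (norm_add_le _ _).trans ?_
      rw [norm_mul, norm_mul]
      have k1 : ‖ν‖ * (‖A.eval z‖ * ‖B1.eval z‖) ≤ n * C1 := by gcongr
      have k2 : C2 ≤ n * C2 := by nlinarith
      linarith
    gcongr
  have h3 : c1 / (C1 + C2) ≤ n * ‖z - e‖ := by
    rw [div_le_iff₀ (by positivity)]
    linarith
  rw [hBz', norm_mul, norm_pow]
  calc (c1 / (C1 + C2)) ^ (k + 1) * (‖B1.eval e‖ / 2)
      ≤ (n * ‖z - e‖) ^ (k + 1) * ‖B1.eval z‖ := by
        gcongr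
    _ = n ^ (k + 1) * (‖z - e‖ ^ (k + 1) * ‖B1.eval z‖) := by rw [mul_pow]; ring

theorem decay {ρ C c η : ℝ} (hρ0 : 0 ≤ ρ) (hρ : ρ < 1) (hc : 0 < c) (hη : 0 < η) (m : ℕ) :
    ∀ᶠ n : ℕ in atTop, ρ ^ n * C * (n : ℝ) ^ m / c ≤ η := by
  have h1 : Tendsto (fun n : ℕ => (n : ℝ) ^ m * ρ ^ n) atTop (𝓝 0) :=
    tendsto_pow_const_mul_const_pow_of_lt_one m hρ0 hρ
  have h2 := h1.mul_const (C / c)
  rw [zero_mul] at h2
  filter_upwards [h2.eventually_le_const hη] with n hn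
  calc ρ ^ n * C * (n : ℝ) ^ m / c = (n : ℝ) ^ m * ρ ^ n * (C / c) := by ring
    _ ≤ η := hn

/-- critical points near a root in the disc -/
theorem near_in {A B : ℂ[X]} (hB0 : B ≠ 0) (hc : IsCoprime A B) {e : ℂ} (he0 : e ≠ 0) (he1 : ‖e‖ < 1) {η : ℝ} (hη : 0 < η) :
    ∃ δ : ℝ, 0 < δ ∧ ∀ᶠ n : ℕ in atTop, ∀ ν z : ℂ, ‖ν‖ ≤ n → ‖z - e‖ < δ → A.eval z ≠ 0 →
      B.eval z ≠ 0 → CritEq A B ν z → ‖z‖ ^ n * ‖A.eval z‖ / ‖B.eval z‖ ≤ η := by
  have hne : ¬ (A.eval e = 0 ∧ B.eval e = 0) := by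
    rintro ⟨h1, h2⟩
    obtain ⟨a, b, hab⟩ := hc
    have := congrArg (Polynomial.eval e) hab
    simp [h1, h2] at this
  set ρ := (‖e‖ + 1) / 2 with hρ
  have hρ0 : 0 ≤ ρ := by positivity
  have hρ1 : ρ < 1 := by rw [hρ]; linarith
  have f1 : ∀ᶠ z in 𝓝 e, ‖z‖ < ρ :=
    continuous_norm.continuousAt.eventually_lt_const (by rw [hρ]; linarith)
  have f2 : ∀ᶠ z in 𝓝 e, ‖A.eval z‖ < ‖A.eval e‖ + 1 :=
    A.continuous.norm.continuousAt.eventually_lt_const (by linarith)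
  -- lower bound of `|B|`
  obtain ⟨δ1, hδ1, c, hc0, m, hlow⟩ : ∃ δ : ℝ, 0 < δ ∧ ∃ c : ℝ, 0 < c ∧ ∃ m : ℕ,
      ∀ (n : ℝ) (ν z : ℂ), 1 ≤ n →
      ‖ν‖ ≤ n → ‖z - e‖ < δ → B.eval z ≠ 0 → CritEq A B ν z → c ≤ n ^ m * ‖B.eval z‖ := by
    by_cases hBe : B.eval e = 0
    · exact near_root hB0 hBe (fun h => hne ⟨h, hBe⟩) he0
    · have hb : 0 < ‖B.eval e‖ := norm_pos_iff.2 hBe
      have f3 : ∀ᶠ z in 𝓝 e, ‖B.eval e‖ / 2 < ‖B.eval z‖ :=
        B.continuous.norm.continuousAt.eventually_const_lt (by linarith)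
      obtain ⟨δ, hδ, hball⟩ := Metric.eventually_nhds_iff.1 f3
      refine ⟨δ, hδ, ‖B.eval e‖ / 2, by positivity, 0, fun n ν z _ _ hz _ _ => ?_⟩
      rw [pow_zero, one_mul]
      exact (hball (show dist z e < δ by rwa [dist_eq_norm])).le
  obtain ⟨δ2, hδ2, hball⟩ := Metric.eventually_nhds_iff.1 (f1.and f2)
  refine ⟨min δ1 δ2, lt_min hδ1 hδ2, ?_⟩
  filter_upwards [decay (C := ‖A.eval e‖ + 1) hρ0 hρ1 hc0 hη m, eventually_ge_atTop 1]
    with n h1 hn ν z hν hz hAz hBz h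
  obtain ⟨g1, g2⟩ := hball (show dist z e < δ2 by
    rw [dist_eq_norm]; exact hz.trans_le (min_le_right _ _))
  have hn1 : (1 : ℝ) ≤ n := by exact_mod_cast hn
  have g3 := hlow n ν z hn1 hν (hz.trans_le (min_le_left _ _)) hBz h
  have hb : 0 < ‖B.eval z‖ := norm_pos_iff.2 hBz
  refine le_trans ?_ h1
  have e1 : ‖z‖ ^ n * ‖A.eval z‖ ≤ ρ ^ n * (‖A.eval e‖ + 1) := by gcongr
  have e2 : ‖z‖ ^ n * ‖A.eval z‖ / ‖B.eval z‖ ≤ ρ ^ n * (‖A.eval e‖ + 1) / ‖B.eval z‖ := by gcongr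
  refine e2.trans ?_
  rw [div_le_div_iff₀ hb hc0]
  calc ρ ^ n * (‖A.eval e‖ + 1) * c ≤ ρ ^ n * (‖A.eval e‖ + 1) * ((n : ℝ) ^ m * ‖B.eval z‖) := by
        gcongr
    _ = _ := by ring

/-- critical points near a root outside of the disc -/
theorem near_out {A B : ℂ[X]} (hA0 : A ≠ 0) (hc : IsCoprime A B) {e : ℂ} (he1 : 1 < ‖e‖) {η : ℝ} (hη : 0 < η) :
    ∃ δ : ℝ, 0 < δ ∧ ∀ᶠ n : ℕ in atTop, ∀ ν z : ℂ, ‖ν‖ ≤ n → ‖z - e‖ < δ → A.eval z ≠ 0 →
      B.eval z ≠ 0 → CritEq A B ν z → ‖B.eval z‖ / (‖z‖ ^ n * ‖A.eval z‖) ≤ η := by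
  have he0 : e ≠ 0 := by
    intro h
    rw [h, norm_zero] at he1
    linarith
  have hne : ¬ (A.eval e = 0 ∧ B.eval e = 0) := by
    rintro ⟨h1, h2⟩
    obtain ⟨a, b, hab⟩ := hc
    have := congrArg (Polynomial.eval e) hab
    simp [h1, h2] at this
  set ρ := (‖e‖ + 1) / 2 with hρ
  have hρ1 : 1 < ρ := by rw [hρ]; linarith
  have hρ0 : 0 < ρ := by linarith
  have f1 : ∀ᶠ z in 𝓝 e, ρ < ‖z‖ :=
    continuous_norm.continuousAt.eventually_const_lt (by rw [hρ]; linarith)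
  have f2 : ∀ᶠ z in 𝓝 e, ‖B.eval z‖ < ‖B.eval e‖ + 1 :=
    B.continuous.norm.continuousAt.eventually_lt_const (by linarith)
  -- lower bound of `|A|`
  obtain ⟨δ1, hδ1, c, hc0, m, hlow⟩ : ∃ δ : ℝ, 0 < δ ∧ ∃ c : ℝ, 0 < c ∧ ∃ m : ℕ,
      ∀ (n : ℝ) (ν z : ℂ), 1 ≤ n →
      ‖ν‖ ≤ n → ‖z - e‖ < δ → A.eval z ≠ 0 → CritEq A B ν z → c ≤ n ^ m * ‖A.eval z‖ := by
    by_cases hAe : A.eval e = 0
    · obtain ⟨δ, hδ, c, hc0, m, h⟩ := near_root hA0 hAe (fun h => hne ⟨hAe, h⟩) he0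
      exact ⟨δ, hδ, c, hc0, m, fun n ν z hn hν hz hAz hcr =>
        h n (-ν) z hn (by rwa [norm_neg]) hz hAz hcr.symm⟩
    · have hb : 0 < ‖A.eval e‖ := norm_pos_iff.2 hAe
      have f3 : ∀ᶠ z in 𝓝 e, ‖A.eval e‖ / 2 < ‖A.eval z‖ :=
        A.continuous.norm.continuousAt.eventually_const_lt (by linarith)
      obtain ⟨δ, hδ, hball⟩ := Metric.eventually_nhds_iff.1 f3
      refine ⟨δ, hδ, ‖A.eval e‖ / 2, by positivity, 0, fun n ν z _ _ hz _ _ => ?_⟩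
      rw [pow_zero, one_mul]
      exact (hball (show dist z e < δ by rwa [dist_eq_norm])).le
  obtain ⟨δ2, hδ2, hball⟩ := Metric.eventually_nhds_iff.1 (f1.and f2)
  refine ⟨min δ1 δ2, lt_min hδ1 hδ2, ?_⟩
  filter_upwards [decay (C := ‖B.eval e‖ + 1) (inv_nonneg.2 hρ0.le)
    (inv_lt_one_of_one_lt₀ hρ1) hc0 hη m, eventually_ge_atTop 1]
    with n h1 hn ν z hν hz hAz hBz h
  obtain ⟨g1, g2⟩ := hball (show dist z e < δ2 by
    rw [dist_eq_norm]; exact hz.trans_le (min_le_right _ _))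
  have hn1 : (1 : ℝ) ≤ n := by exact_mod_cast hn
  have g3 := hlow n ν z hn1 hν (hz.trans_le (min_le_left _ _)) hAz h
  have ha : 0 < ‖A.eval z‖ := norm_pos_iff.2 hAz
  refine le_trans ?_ h1
  have hzn : 0 < ‖z‖ ^ n := pow_pos (hρ0.trans g1) n
  have e2 : ‖B.eval z‖ / (‖z‖ ^ n * ‖A.eval z‖) ≤ (‖B.eval e‖ + 1) / (ρ ^ n * ‖A.eval z‖) := by
    gcongr
  refine e2.trans ?_
  rw [inv_pow, div_le_div_iff₀ (by positivity) hc0]
  have e3 : (ρ ^ n)⁻¹ * (‖B.eval e‖ + 1) * (n : ℝ) ^ m * (ρ ^ n * ‖A.eval z‖)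
      = (‖B.eval e‖ + 1) * ((n : ℝ) ^ m * ‖A.eval z‖) := by
    field_simp
  rw [e3]
  gcongr

theorem exists_min (T : Finset ℂ) {d : ℂ → ℝ} (hd : ∀ e ∈ T, 0 < d e) :
    ∃ δ : ℝ, 0 < δ ∧ ∀ e ∈ T, δ ≤ d e := by
  classical
  induction T using Finset.induction_on with
  | empty => exact ⟨1, one_pos, by simp⟩
  | insert a T _ ih =>
    obtain ⟨δ, hδ, h⟩ := ih fun e he => hd e (Finset.mem_insert_of_mem he)
    refine ⟨min δ (d a), lt_min hδ (hd a (Finset.mem_insert_self a T)), fun e he => ?_⟩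
    rcases Finset.mem_insert.1 he with rfl | he
    · exact min_le_right _ _
    · exact (min_le_left _ _).trans (h e he)

/-- **Critical values of `z ^ n A / B`.** -/
theorem crit_value {A B : ℂ[X]} (hc : IsCoprime A B) (hA : A.eval 0 ≠ 0) (hB : B.eval 0 ≠ 0)
    (hu : ∀ e, A.eval e = 0 ∨ B.eval e = 0 → ‖e‖ ≠ 1) {η : ℝ} (hη : 0 < η) :
    ∀ᶠ n : ℕ in atTop, ∀ z : ℂ, A.eval z ≠ 0 → B.eval z ≠ 0 → CritEq A B n z →
      ‖z ^ n * A.eval z / B.eval z‖ ≤ η ∨ ‖B.eval z / (z ^ n * A.eval z)‖ ≤ η := by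
  classical
  have hA0 : A ≠ 0 := by rintro rfl; simp at hA
  have hB0 : B ≠ 0 := by rintro rfl; simp at hB
  have hAB : A * B ≠ 0 := mul_ne_zero hA0 hB0
  set T := (A * B).roots.toFinset with hT
  have hmem : ∀ e, e ∈ T ↔ (A.eval e = 0 ∨ B.eval e = 0) := by
    intro e
    rw [hT, Multiset.mem_toFinset, mem_roots hAB, IsRoot.def, eval_mul, mul_eq_zero]
  have key : ∀ e ∈ T, ∃ δ : ℝ, 0 < δ ∧ ∀ᶠ n : ℕ in atTop, ∀ ν z : ℂ, ‖ν‖ ≤ n →
      ‖z - e‖ < δ → A.eval z ≠ 0 → B.eval z ≠ 0 → CritEq A B ν z →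
      ‖z‖ ^ n * ‖A.eval z‖ / ‖B.eval z‖ ≤ η ∨ ‖B.eval z‖ / (‖z‖ ^ n * ‖A.eval z‖) ≤ η := by
    intro e he
    have he' := (hmem e).1 he
    have he0 : e ≠ 0 := by
      rintro rfl
      rcases he' with h | h
      · exact hA h
      · exact hB h
    rcases lt_or_gt_of_ne (hu e he') with h1 | h1
    · obtain ⟨δ, hδ, h⟩ := near_in hB0 hc he0 h1 hη
      exact ⟨δ, hδ, h.mono fun n hn ν z g1 g2 g3 g4 g5 => Or.inl (hn ν z g1 g2 g3 g4 g5)⟩
    · obtain ⟨δ, hδ, h⟩ := near_out hA0 hc h1 hη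
      exact ⟨δ, hδ, h.mono fun n hn ν z g1 g2 g3 g4 g5 => Or.inr (hn ν z g1 g2 g3 g4 g5)⟩
  choose! d hd0 hd using key
  obtain ⟨δ, hδ, hδT⟩ := exists_min T hd0
  obtain ⟨K, hK⟩ := far hA0 hB0 hδ
  have hall : ∀ᶠ n : ℕ in atTop, ∀ e ∈ T, ∀ ν z : ℂ, ‖ν‖ ≤ n →
      ‖z - e‖ < d e → A.eval z ≠ 0 → B.eval z ≠ 0 → CritEq A B ν z →
      ‖z‖ ^ n * ‖A.eval z‖ / ‖B.eval z‖ ≤ η ∨ ‖B.eval z‖ / (‖z‖ ^ n * ‖A.eval z‖) ≤ η :=
    (Filter.eventually_all_finset T).2 fun e he => hd e he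
  have hKn : ∀ᶠ n : ℕ in atTop, K < n :=
    tendsto_natCast_atTop_atTop.eventually_gt_atTop K
  filter_upwards [hall, hKn] with n h1 h2 z hAz hBz hcr
  have h3 : ∃ e ∈ T, ‖z - e‖ < δ := by
    by_contra hcon
    push Not at hcon
    have := hK n z (fun e he => hcon e ((hmem e).2 he)) hAz hBz hcr
    rw [Complex.norm_natCast] at this
    linarith
  obtain ⟨e, heT, hze⟩ := h3
  have h4 := h1 e heT n z (by rw [Complex.norm_natCast]) (hze.trans_le (hδT e heT)) hAz hBz hcr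
  rw [norm_div, norm_mul, norm_pow, norm_div, norm_mul, norm_pow]
  exact h4

end Pool.Agent.R145.ZN
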