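import Pool.Agent.R145.ZN.Main

/-!
The family `s R(z ^ n G(l z))`.
-/

set_option autoImplicit false

open Set Filter Topology Polynomial
open scoped OnePoint

namespace Pool.Agent.R145.ZN

open Pool.Agent.Helper114.Herman Pool.Agent.Helper114.Konig Pool.Agent.H762R2.Rt

theorem comp_lin_eval (A : ℂ[X]) (l z : ℂ) : (A.comp (C l * X)).eval z = A.eval (l * z) := by
  rw [eval_comp, eval_mul, eval_C, eval_X]

theorem comp_lin_natDegree (A : ℂ[X]) {l : ℂ} (hl : l ≠ 0) :
    (A.comp (C l * X)).natDegree = A.natDegree := by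
  rw [natDegree_comp, natDegree_C_mul_X l hl, mul_one]

/-- The degree of a composition. -/
theorem comb_natDegree {P : ℂ[X]} (hP : P ≠ 0) {D : ℕ} (hPD : P.natDegree ≤ D) {U V : ℂ[X]}
    (hV : V ≠ 0) (hlt : V.natDegree < U.natDegree) :
    (comb P D U V).natDegree = P.natDegree * U.natDegree + (D - P.natDegree) * V.natDegree := by
  have hU : U ≠ 0 := by rintro rfl; simp at hlt
  set p := P.natDegree with hp
  have hterm : ∀ k, P.coeff k ≠ 0 →
      (C (P.coeff k) * U ^ k * V ^ (D - k)).natDegree = k * U.natDegree + (D - k) * V.natDegree := by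
    intro k hk
    have h1 : C (P.coeff k) ≠ 0 := C_ne_zero.2 hk
    rw [natDegree_mul (mul_ne_zero h1 (pow_ne_zero _ hU)) (pow_ne_zero _ hV),
      natDegree_mul h1 (pow_ne_zero _ hU), natDegree_C, natDegree_pow, natDegree_pow, zero_add]
  have hlead : P.coeff p ≠ 0 := leadingCoeff_ne_zero.2 hP
  have hsplit : comb P D U V = (∑ k ∈ Finset.range p, C (P.coeff k) * U ^ k * V ^ (D - k))
      + C (P.coeff p) * U ^ p * V ^ (D - p) := by
    unfold comb
    rw [← Finset.sum_range_succ (fun k => C (P.coeff k) * U ^ k * V ^ (D - k)) p]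
    symm
    refine Finset.sum_subset (fun k hk => ?_) fun k _ hk => ?_
    · rw [Finset.mem_range] at hk ⊢
      omega
    · have h1 : P.coeff k = 0 := coeff_eq_zero_of_natDegree_lt (by
        rw [Finset.mem_range] at hk
        omega)
      rw [h1, C_0, zero_mul, zero_mul]
  rw [hsplit]
  rcases Nat.eq_zero_or_pos p with h0 | h0
  · rw [h0, Finset.range_zero, Finset.sum_empty, zero_add]
    have := hterm p hlead
    rw [h0] at this
    exact this
  · rw [natDegree_add_eq_right_of_natDegree_lt, hterm p hlead]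
    rw [hterm p hlead]
    have h2 : (∑ k ∈ Finset.range p, C (P.coeff k) * U ^ k * V ^ (D - k)).natDegree
        ≤ (p - 1) * U.natDegree + (D - (p - 1)) * V.natDegree := by
      refine natDegree_sum_le_of_forall_le _ _ fun k hk => ?_
      by_cases hk0 : P.coeff k = 0
      · rw [hk0, C_0, zero_mul, zero_mul, natDegree_zero]
        exact Nat.zero_le _
      · rw [hterm k hk0]
        have hk1 : k ≤ p - 1 := by
          have := Finset.mem_range.1 hk
          omega
        obtain ⟨j, hj⟩ : ∃ j, p - 1 = k + j := ⟨p - 1 - k, by omega⟩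
        have hj2 : D - k = (D - (p - 1)) + j := by omega
        rw [hj2, hj]
        nlinarith [Nat.mul_le_mul_left j hlt.le]
    refine lt_of_le_of_lt h2 ?_
    obtain ⟨q, hq⟩ : ∃ q, p = q + 1 := ⟨p - 1, by omega⟩
    have e1 : D - (p - 1) = (D - p) + 1 := by omega
    rw [e1, hq, Nat.add_sub_cancel]
    nlinarith

theorem family {P Q A B : ℂ[X]} (hPQ : IsCoprime P Q) (hD1 : 1 ≤ max P.natDegree Q.natDegree)
    (hAB : IsCoprime A B) (hA : A.eval 0 ≠ 0) (hB : B.eval 0 ≠ 0) :
    ∃ L : Set ℝ, L.Finite ∧ ∀ l : ℂ, l ≠ 0 → ‖l‖ ∉ L → ∃ S : Set ℝ, S.Finite ∧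
      ∀ s : ℂ, s ≠ 0 → ‖s‖ ∉ S → ∃ n₀ : ℕ, ∀ n : ℕ, n₀ ≤ n →
        max (comb (C s * P) (max P.natDegree Q.natDegree) (X ^ n * A.comp (C l * X))
            (B.comp (C l * X))).natDegree
          (comb Q (max P.natDegree Q.natDegree) (X ^ n * A.comp (C l * X))
            (B.comp (C l * X))).natDegree
          = max P.natDegree Q.natDegree * (n + A.natDegree) ∧
        Hyp (comb (C s * P) (max P.natDegree Q.natDegree) (X ^ n * A.comp (C l * X))
            (B.comp (C l * X)))
          (comb Q (max P.natDegree Q.natDegree) (X ^ n * A.comp (C l * X))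
            (B.comp (C l * X))) := by
  classical
  have hA0 : A ≠ 0 := by rintro rfl; simp at hA
  have hB0 : B ≠ 0 := by rintro rfl; simp at hB
  have hABne : A * B ≠ 0 := mul_ne_zero hA0 hB0
  set T := (A * B).roots.toFinset with hT
  have hmem : ∀ e, e ∈ T ↔ (A.eval e = 0 ∨ B.eval e = 0) := by
    intro e
    rw [hT, Multiset.mem_toFinset, mem_roots hABne, IsRoot.def, eval_mul, mul_eq_zero]
  have hW0 : wro P Q ≠ 0 := wro_ne_zero hPQ hD1
  refine ⟨(fun e : ℂ => ‖e‖) '' (T : Set ℂ), T.finite_toSet.image _, fun l hl hlL => ?_⟩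
  -- the marked values
  set M : Finset (ℂ × ℂ) := insert (P.coeff 0, Q.coeff 0)
    (insert (P.coeff (max P.natDegree Q.natDegree), Q.coeff (max P.natDegree Q.natDegree))
      ((wro P Q).roots.toFinset.image fun y => (P.eval y, Q.eval y))) with hM
  have hmark : ∀ p q, Mark P Q p q → (p, q) ∈ M := by
    rintro p q (⟨rfl, rfl⟩ | ⟨rfl, rfl⟩ | ⟨y, hy, rfl, rfl⟩)
    · exact Finset.mem_insert_self _ _
    · exact Finset.mem_insert_of_mem (Finset.mem_insert_self _ _)
    · refine Finset.mem_insert_of_mem (Finset.mem_insert_of_mem (Finset.mem_image.2 ⟨y, ?_, rfl⟩))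
      rw [Multiset.mem_toFinset, mem_roots hW0]
      exact hy
  set F : Finset ℝ := insert 1 (T.image fun e => ‖e‖ / ‖l‖) with hF
  refine ⟨(fun q : (ℂ × ℂ) × ℝ => q.2 * ‖q.1.2‖ / ‖q.1.1‖) '' ((M ×ˢ F : Finset _) : Set _),
    (Finset.finite_toSet _).image _, fun s hs hsS => ?_⟩
  have hln : 0 < ‖l‖ := norm_pos_iff.2 hl
  have hPs : IsCoprime (C s * P) Q :=
    (isCoprime_mul_unit_left_left (Polynomial.isUnit_C.2 (isUnit_iff_ne_zero.2 hs)) _ _).2 hPQ
  have hdeg : (C s * P).natDegree = P.natDegree := natDegree_C_mul hs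
  have hAl : (A.comp (C l * X)).eval 0 ≠ 0 := by rwa [comp_lin_eval, mul_zero]
  have hBl : (B.comp (C l * X)).eval 0 ≠ 0 := by rwa [comp_lin_eval, mul_zero]
  have hABl : IsCoprime (A.comp (C l * X)) (B.comp (C l * X)) := by
    refine coprime_of_roots fun z => ?_
    rw [comp_lin_eval, comp_lin_eval]
    exact roots_of_coprime hAB (l * z)
  have hu : ∀ e, (A.comp (C l * X)).eval e = 0 ∨ (B.comp (C l * X)).eval e = 0 → ‖e‖ ≠ 1 := by
    intro e he h1
    rw [comp_lin_eval, comp_lin_eval] at he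
    apply hlL
    refine ⟨l * e, (hmem _).2 he, ?_⟩
    simp only [norm_mul, h1, mul_one]
  have hwro : ∀ y, (wro (C s * P) Q).eval y = s * (wro P Q).eval y := by
    intro y
    simp only [wro, derivative_C_mul, eval_sub, eval_mul, eval_C]
    ring
  have hm : ∀ p q, Mark (C s * P) Q p q → q ≠ 0 → ‖p / q‖ ≠ 1 ∧
      (A.comp (C l * X)).eval (p / q) ≠ 0 ∧ (B.comp (C l * X)).eval (p / q) ≠ 0 := by
    intro p q hpq hq
    obtain ⟨p', hp', hpM⟩ : ∃ p', p = s * p' ∧ (p', q) ∈ M := by
      rcases hpq with ⟨h1, h2⟩ | ⟨h1, h2⟩ | ⟨y, hy, h1, h2⟩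
      · refine ⟨P.coeff 0, by rw [h1, coeff_C_mul], hmark _ _ (Or.inl ⟨rfl, h2⟩)⟩
      · rw [hdeg] at h1 h2
        refine ⟨_, by rw [h1, coeff_C_mul], hmark _ _ (Or.inr (Or.inl ⟨rfl, h2⟩))⟩
      · rw [hwro] at hy
        have hy' : (wro P Q).eval y = 0 := (mul_eq_zero.1 hy).resolve_left hs
        refine ⟨P.eval y, by rw [h1, eval_mul, eval_C], hmark _ _ (Or.inr (Or.inr ⟨y, hy', rfl, h2⟩))⟩
    have hqn : 0 < ‖q‖ := norm_pos_iff.2 hq
    -- the modulus is none of the radii
    have key : ∀ t ∈ F, p' ≠ 0 → ‖p / q‖ ≠ t := by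
      intro t ht hp0 h
      have hpn : 0 < ‖p'‖ := norm_pos_iff.2 hp0
      apply hsS
      refine ⟨((p', q), t), ?_, ?_⟩
      · exact Finset.mem_coe.2 (Finset.mem_product.2 ⟨hpM, ht⟩)
      · simp only
        rw [← h, hp', norm_div, norm_mul]
        field_simp
    have hroot : ∀ z : ℂ, (A.eval (l * z) = 0 ∨ B.eval (l * z) = 0) → ‖z‖ ∈ F := by
      intro z hz
      rw [hF]
      refine Finset.mem_insert_of_mem (Finset.mem_image.2 ⟨l * z, (hmem _).2 hz, ?_⟩)
      rw [norm_mul]
      field_simp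
    rcases eq_or_ne p' 0 with h0 | h0
    · have e : p / q = 0 := by rw [hp', h0, mul_zero, zero_div]
      rw [e]
      exact ⟨by simp, hAl, hBl⟩
    · refine ⟨key 1 (Finset.mem_insert_self _ _) h0, fun h => ?_, fun h => ?_⟩
      · rw [comp_lin_eval] at h
        exact key _ (hroot _ (Or.inl h)) h0 rfl
      · rw [comp_lin_eval] at h
        exact key _ (hroot _ (Or.inr h)) h0 rfl
  have hmain := hyp_comp (P := C s * P) (Q := Q) hPs (by rw [hdeg]; exact hD1) hABl hAl hBl hu hm
  rw [hdeg] at hmain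
  obtain ⟨n₀, hn₀⟩ := eventually_atTop.1 (hmain.and (eventually_gt_atTop B.natDegree))
  refine ⟨n₀, fun n hn => ⟨?_, (hn₀ n hn).1⟩⟩
  have hnB := (hn₀ n hn).2
  -- degrees
  have hQ0 : Q ≠ 0 := by
    rintro rfl
    have h1 : IsUnit P := isCoprime_zero_right.1 hPQ
    have h2 := natDegree_eq_zero_of_isUnit h1
    rw [h2] at hD1
    simp at hD1
  have hAl0 : A.comp (C l * X) ≠ 0 := by
    intro h; rw [h] at hAl; simp at hAl
  have hBl0 : B.comp (C l * X) ≠ 0 := by
    intro h; rw [h] at hBl; simp at hBl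
  have hUd : (X ^ n * A.comp (C l * X)).natDegree = n + A.natDegree := by
    rw [natDegree_X_pow_mul n hAl0, comp_lin_natDegree A hl, add_comm]
  have hVd : (B.comp (C l * X)).natDegree = B.natDegree := comp_lin_natDegree B hl
  have hlt : (B.comp (C l * X)).natDegree < (X ^ n * A.comp (C l * X)).natDegree := by
    rw [hUd, hVd]; omega
  set D := max P.natDegree Q.natDegree with hD
  have hle : ∀ p : ℕ, p ≤ D → p * (n + A.natDegree) + (D - p) * B.natDegree
      ≤ D * (n + A.natDegree) := by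
    intro p hp
    obtain ⟨j, hj⟩ : ∃ j, D = p + j := ⟨D - p, by omega⟩
    rw [hj, Nat.add_sub_cancel_left, add_mul]
    have : j * B.natDegree ≤ j * (n + A.natDegree) := Nat.mul_le_mul_left j (by omega)
    omega
  have hdQ := comb_natDegree hQ0 (D := D) (le_max_right _ _) hBl0 hlt
  rw [hUd, hVd] at hdQ
  rcases eq_or_ne P 0 with hP0 | hP0
  · -- `P = 0`: impossible
    exfalso
    subst hP0
    have h1 : IsUnit Q := isCoprime_zero_left.1 hPQ
    have h2 := natDegree_eq_zero_of_isUnit h1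
    rw [hD, h2] at hD1
    simp at hD1
  · have hsP : C s * P ≠ 0 := mul_ne_zero (C_ne_zero.2 hs) hP0
    have hdP := comb_natDegree hsP (D := D) (by rw [hdeg]; exact le_max_left _ _) hBl0 hlt
    rw [hUd, hVd, hdeg] at hdP
    rw [hdP, hdQ]
    apply le_antisymm
    · exact max_le (hle _ (le_max_left _ _)) (hle _ (le_max_right _ _))
    · rcases max_choice P.natDegree Q.natDegree with h | h
      · rw [← hD] at h
        refine le_trans (le_of_eq ?_) (le_max_left _ _)
        rw [← h, Nat.sub_self, zero_mul, add_zero]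
      · rw [← hD] at h
        refine le_trans (le_of_eq ?_) (le_max_right _ _)
        rw [← h, Nat.sub_self, zero_mul, add_zero]

end Pool.Agent.R145.ZN
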