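import Pool.Agent.R145.ZN.Sphere

/-!
Hyperbolicity of `R(z ^ n A(z) / B(z))` for large `n`.
-/

set_option autoImplicit false

open Set Filter Topology Polynomial
open scoped OnePoint

namespace Pool.Agent.R145.ZN

open Pool.Agent.Helper114.Herman Pool.Agent.Helper114.Konig Pool.Agent.H762R2.Rt

/-- The polynomial `∑ P_k U ^ k V ^ (D - k)`: the numerator or denominator of the composition of
a rational function of degree `D` with `U / V`. -/
noncomputable def comb (P : ℂ[X]) (D : ℕ) (U V : ℂ[X]) : ℂ[X] :=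
  ∑ k ∈ Finset.range (D + 1), C (P.coeff k) * U ^ k * V ^ (D - k)

theorem comb_eval (P : ℂ[X]) (D : ℕ) (U V : ℂ[X]) (z : ℂ) :
    (comb P D U V).eval z = hom P D (U.eval z) (V.eval z) := by
  unfold comb hom
  rw [eval_finsetSum]
  refine Finset.sum_congr rfl fun k _ => ?_
  simp

/-- `(p, q)` is a marked value of `P / Q`: the value at `0`, at `∞`, or at a zero of the
Wronskian `P' Q - P Q'`. -/
def Mark (P Q : ℂ[X]) (p q : ℂ) : Prop :=
  (p = P.coeff 0 ∧ q = Q.coeff 0) ∨
    (p = P.coeff (max P.natDegree Q.natDegree) ∧ q = Q.coeff (max P.natDegree Q.natDegree)) ∨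
    ∃ y : ℂ, (wro P Q).eval y = 0 ∧ p = P.eval y ∧ q = Q.eval y

theorem local_inj_coe {g : ℂ → ℂ} {g' z : ℂ} (h : HasStrictDerivAt g g' z) (h0 : g' ≠ 0) :
    ∃ U ∈ 𝓝 z, Set.InjOn g U := injOn_of_deriv h h0

theorem hyp_comp {P Q A B : ℂ[X]} (hPQ : IsCoprime P Q) (hD1 : 1 ≤ max P.natDegree Q.natDegree)
    (hAB : IsCoprime A B) (hA : A.eval 0 ≠ 0) (hB : B.eval 0 ≠ 0)
    (hu : ∀ e, A.eval e = 0 ∨ B.eval e = 0 → ‖e‖ ≠ 1)
    (hm : ∀ p q, Mark P Q p q → q ≠ 0 → ‖p / q‖ ≠ 1 ∧ A.eval (p / q) ≠ 0 ∧ B.eval (p / q) ≠ 0) :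
    ∀ᶠ n : ℕ in atTop, Hyp (comb P (max P.natDegree Q.natDegree) (X ^ n * A) B)
      (comb Q (max P.natDegree Q.natDegree) (X ^ n * A) B) := by
  classical
  set D := max P.natDegree Q.natDegree with hD
  have hPd : P.natDegree ≤ D := le_max_left _ _
  have hQd : Q.natDegree ≤ D := le_max_right _ _
  have hA0 : A ≠ 0 := by rintro rfl; simp at hA
  have hB0 : B ≠ 0 := by rintro rfl; simp at hB
  have hQ0 : Q ≠ 0 := by
    rintro rfl
    have h1 : IsUnit P := isCoprime_zero_right.1 hPQ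
    have h2 := natDegree_eq_zero_of_isUnit h1
    rw [h2] at hD
    simp at hD
    omega
  obtain ⟨R, hR, -⟩ := exists_isRat hPQ hQ0
  have hRf : ∀ u v : ℂ, (u ≠ 0 ∨ v ≠ 0) → R (pr u v) = pr (hom P D u v) (hom Q D u v) :=
    fun u v h => rat_formula hR hD hD1 h
  have hRE : ∀ j y, R (E j y) = pr (Nn P D j y) (Nn Q D j y) := by
    intro j y
    cases j
    · simp only [E, Nn, Bool.false_eq_true, if_false]
      exact hRf _ _ (Or.inr one_ne_zero)
    · simp only [E, Nn, if_true]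
      exact hRf _ _ (Or.inl one_ne_zero)
  have hN0 : ∀ j, Nn P D j 0 ≠ 0 ∨ Nn Q D j 0 ≠ 0 := by
    intro j
    cases j
    · simp only [Nn, Bool.false_eq_true, if_false]
      exact hom_not_both hPQ hD (Or.inr one_ne_zero) hD1
    · simp only [Nn, if_true]
      exact hom_not_both hPQ hD (Or.inl one_ne_zero) hD1
  have hmark : ∀ j, Mark P Q (Nn P D j 0) (Nn Q D j 0) := by
    intro j
    cases j
    · left
      simp only [Nn, Bool.false_eq_true, if_false]
      rw [hom_one_right, hom_one_right, pol_zero, pol_zero]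
      exact ⟨rfl, rfl⟩
    · right; left
      simp only [Nn, if_true]
      rw [hom_zero, hom_zero, one_pow, mul_one, mul_one]
      exact ⟨rfl, rfl⟩
  have hkap := fun j => kap_spec (hN0 j)
  have hside := fun j => side (P := P) (Q := Q) (A := A) (B := B) (D := D) (j := j) hA0
    (fun h => hm _ _ (hmark j) h)
  choose τ s β hs hβ hs0 hform using hside
  -- the radius for `κ`
  have hη : ∃ η : ℝ, 0 < η ∧ ∀ j y, ‖y‖ ≤ η →
      pr (Nn P D j y) (Nn Q D j y) = psi P Q D j (kap P Q D j y) := by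
    obtain ⟨η1, h1, h1'⟩ := Metric.nhds_basis_closedBall.mem_iff.1 (hkap false).2.2
    obtain ⟨η2, h2, h2'⟩ := Metric.nhds_basis_closedBall.mem_iff.1 (hkap true).2.2
    refine ⟨min η1 η2, lt_min h1 h2, fun j y hy => ?_⟩
    cases j
    · exact h1' (mem_closedBall_zero_iff.2 (hy.trans (min_le_left _ _)))
    · exact h2' (mem_closedBall_zero_iff.2 (hy.trans (min_le_right _ _)))
  obtain ⟨η, hη0, hη⟩ := hη
  have hcon := fun j => contraction (hs j) (hβ j) (hkap (τ j)).1 (hs0 j) (hkap (τ j)).2.1 hη0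
  choose r0 hr0 hr0' using hcon
  have hrad : ∃ r1 : ℝ, 0 < r1 ∧ ∀ j x, ‖x‖ ≤ r1 → ∀ (n : ℕ) (g : OnePoint ℂ → OnePoint ℂ),
      GF A B n g → B.natDegree ≤ n →
        g (psi P Q D j x) = E (τ j) (s j x ^ (n - B.natDegree) * β j x) := by
    obtain ⟨η1, h1, h1'⟩ := Metric.nhds_basis_closedBall.mem_iff.1 (hform false)
    obtain ⟨η2, h2, h2'⟩ := Metric.nhds_basis_closedBall.mem_iff.1 (hform true)
    refine ⟨min η1 η2, lt_min h1 h2, fun j x hx => ?_⟩
    cases j
    · exact h1' (mem_closedBall_zero_iff.2 (hx.trans (min_le_left _ _)))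
    · exact h2' (mem_closedBall_zero_iff.2 (hx.trans (min_le_right _ _)))
  obtain ⟨r1, hr1, hr1'⟩ := hrad
  set r := min r1 (min (r0 false) (r0 true)) with hr
  have hrpos : 0 < r := lt_min hr1 (lt_min (hr0 false) (hr0 true))
  have hrr1 : r ≤ r1 := min_le_left _ _
  have hrr0 : ∀ j, r ≤ r0 j := by
    intro j
    cases j
    · exact (min_le_right _ _).trans (min_le_left _ _)
    · exact (min_le_right _ _).trans (min_le_right _ _)
  -- the radius for entering
  have hη2 : ∃ η2 : ℝ, 0 < η2 ∧ η2 ≤ η ∧ ∀ j y, ‖y‖ ≤ η2 → ‖kap P Q D j y‖ ≤ r := by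
    have h : ∀ j, ∀ᶠ y in 𝓝 (0 : ℂ), ‖kap P Q D j y‖ < r := by
      intro j
      have := (hkap j).1.continuousAt.norm
      refine this.eventually_lt_const ?_
      show ‖kap P Q D j 0‖ < r
      rw [(hkap j).2.1, norm_zero]
      exact hrpos
    obtain ⟨e1, h1, h1'⟩ := Metric.nhds_basis_closedBall.mem_iff.1 (h false)
    obtain ⟨e2, h2, h2'⟩ := Metric.nhds_basis_closedBall.mem_iff.1 (h true)
    refine ⟨min η (min e1 e2), lt_min hη0 (lt_min h1 h2), min_le_left _ _, fun j y hy => ?_⟩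
    cases j
    · exact le_of_lt (h1' (mem_closedBall_zero_iff.2
        (hy.trans ((min_le_right _ _).trans (min_le_left _ _)))))
    · exact le_of_lt (h2' (mem_closedBall_zero_iff.2
        (hy.trans ((min_le_right _ _).trans (min_le_right _ _)))))
  obtain ⟨η2, hη20, hη2η, hη2⟩ := hη2
  -- the critical values of `P / Q`
  set T := (wro P Q).roots.toFinset.filter (fun y => Q.eval y ≠ 0) with hT
  have hW0 : wro P Q ≠ 0 := wro_ne_zero hPQ hD1
  have hTn : ∀ᶠ n : ℕ in atTop, ∀ y ∈ T, ∀ g, GF A B n g →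
      ∃ j y', ‖y'‖ ≤ η2 ∧ g ((P.eval y / Q.eval y : ℂ) : OnePoint ℂ) = E j y' := by
    refine (Filter.eventually_all_finset T).2 fun y hy => ?_
    rw [hT, Finset.mem_filter, Multiset.mem_toFinset, mem_roots hW0] at hy
    obtain ⟨h1, h2, h3⟩ := hm _ _ (Or.inr (Or.inr ⟨y, hy.1, rfl, rfl⟩)) hy.2
    exact point_far h1 h2 h3 hη20
  have hsub : Tendsto (fun n : ℕ => n - B.natDegree) atTop atTop := tendsto_sub_atTop_nat _
  have hc1 : ∀ᶠ n : ℕ in atTop, ∀ j, (∀ x, ‖x‖ ≤ r →
        ‖s j x ^ (n - B.natDegree) * β j x‖ ≤ η) ∧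
      (∀ x, ‖x‖ ≤ r → ‖kap P Q D (τ j) (s j x ^ (n - B.natDegree) * β j x)‖ < r) ∧
      ∀ x y, ‖x‖ ≤ r → ‖y‖ ≤ r →
        ‖kap P Q D (τ j) (s j x ^ (n - B.natDegree) * β j x)
          - kap P Q D (τ j) (s j y ^ (n - B.natDegree) * β j y)‖ ≤ (1 / 2) * ‖x - y‖ := by
    have h1 := hsub.eventually (hr0' false r hrpos (hrr0 false))
    have h2 := hsub.eventually (hr0' true r hrpos (hrr0 true))
    filter_upwards [h1, h2] with n g1 g2 j
    cases j
    · exact g1
    · exact g2
  filter_upwards [hc1, hTn, crit_value hAB hA hB hu hη20, eventually_gt_atTop B.natDegree]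
    with n k1 k2 k3 k4
  have hn0 : 0 < n := by omega
  obtain ⟨g, hg⟩ := gf_exists hAB hA0 hB k4
  -- not both zero
  have hnb : ∀ z : ℂ, z ^ n * A.eval z ≠ 0 ∨ B.eval z ≠ 0 := by
    intro z
    rcases eq_or_ne z 0 with rfl | hz
    · exact Or.inr hB
    · rcases roots_of_coprime hAB z with h | h
      · exact Or.inl (mul_ne_zero (pow_ne_zero _ hz) h)
      · exact Or.inr h
  set U := X ^ n * A with hU
  have hUe : ∀ z, U.eval z = z ^ n * A.eval z := fun z => by rw [hU]; simp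
  have hfz : ∀ z : ℂ, R (g (z : OnePoint ℂ))
      = pr ((comb P D U B).eval z) ((comb Q D U B).eval z) := by
    intro z
    rw [hg.fin z, hRf _ _ (hnb z), comb_eval, comb_eval, hUe]
  have hfc : Continuous fun x => R (g x) := hR.cont.comp hg.cont
  refine ⟨coprime_of_roots fun z => ?_, fun x => R (g x), hfc, ?_, ?_⟩
  · rw [comb_eval, comb_eval, hUe]
    exact hom_not_both hPQ hD (hnb z) hD1
  · intro z hz
    show R (g (z : OnePoint ℂ)) = _
    rw [hfz, pr_ne hz]
  -- charts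
  have hconj : ∀ j x, ‖x‖ ≤ r → (fun x => R (g x)) (psi P Q D j x)
      = psi P Q D (τ j) (kap P Q D (τ j) (s j x ^ (n - B.natDegree) * β j x)) := by
    intro j x hx
    simp only
    rw [hr1' j x (hx.trans hrr1) n g hg k4.le, hRE]
    exact hη _ _ ((k1 j).1 x hx)
  have hgo : ∀ c : OnePoint ℂ, (∃ j y, ‖y‖ ≤ η2 ∧ g c = E j y) →
      Sinks (fun x => R (g x)) c := by
    rintro c ⟨j, y, hy, hgc⟩
    refine two_charts (ψ := psi P Q D) (σ := τ)
      (h := fun j x => kap P Q D (τ j) (s j x ^ (n - B.natDegree) * β j x)) hrpos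
      (psi_cont P Q D) (psi_open P Q D) hconj (fun j x hx => (k1 j).2.1 x hx)
      (fun j x y hx hy => (k1 j).2.2 x y hx hy) (hη2 j y hy) (i := j) ?_
    show R (g c) = _
    rw [hgc, hRE]
    exact hη _ _ (hy.trans hη2η)
  have hinf : Sinks (fun x => R (g x)) ∞ := by
    refine hgo _ ⟨true, 0, by simp [hη20.le], ?_⟩
    have h1 := hg.inf 0
    rw [pr_zero] at h1
    rw [h1]
    simp only [E, if_true, pr_zero]
    have e3 : (0 : ℂ) ^ (n + A.natDegree - B.natDegree) = 0 := zero_pow (by omega)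
    rw [e3, zero_mul, pr_zero]
  intro c hnot
  induction c using OnePoint.rec with
  | infty => exact hinf
  | coe z =>
    by_cases hBz : B.eval z = 0
    · refine hgo _ ⟨true, 0, by simp [hη20.le], ?_⟩
      rw [hg.fin, hBz, pr_zero]
      simp only [E, if_true, pr_zero]
    by_cases hUz : z ^ n * A.eval z = 0
    · refine hgo _ ⟨false, 0, by simp [hη20.le], ?_⟩
      rw [hg.fin, hUz, pr_ne hBz, zero_div]
      simp only [E, Bool.false_eq_true, if_false, pr_one]
    have hAz : A.eval z ≠ 0 := fun h => hUz (by rw [h, mul_zero])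
    have hz0 : z ≠ 0 := fun h => hUz (by rw [h, zero_pow hn0.ne', zero_mul])
    by_cases hcr : CritEq A B n z
    · rcases k3 z hAz hBz hcr with h | h
      · refine hgo _ ⟨false, _, h, ?_⟩
        rw [hg.fin, pr_ne hBz]
        simp only [E, Bool.false_eq_true, if_false, pr_one]
      · refine hgo _ ⟨true, _, h, ?_⟩
        rw [hg.fin]
        simp only [E, if_true]
        have := pr_smul (u := 1) (v := B.eval z / (z ^ n * A.eval z)) hUz
        rw [mul_one, mul_div_cancel₀ _ hUz] at this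
        exact this
    set y := z ^ n * A.eval z / B.eval z with hy
    have hgz : g (z : OnePoint ℂ) = (y : OnePoint ℂ) := by rw [hg.fin, pr_ne hBz]
    have hRy : R (y : OnePoint ℂ) = pr (P.eval y) (Q.eval y) := by
      have := hRf y 1 (Or.inr one_ne_zero)
      rw [pr_one, hom_z_one hPd, hom_z_one hQd] at this
      exact this
    by_cases hQy : Q.eval y = 0
    · refine sinks_of_image hfc ?_
      show Sinks _ (R (g (z : OnePoint ℂ)))
      rw [hgz, hRy, hQy, pr_zero]
      exact hinf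
    by_cases hWy : (wro P Q).eval y = 0
    · refine sinks_of_image hfc ?_
      show Sinks _ (R (g (z : OnePoint ℂ)))
      rw [hgz, hRy, pr_ne hQy]
      refine hgo _ (k2 y ?_ g hg)
      rw [hT, Finset.mem_filter, Multiset.mem_toFinset, mem_roots hW0]
      exact ⟨hWy, hQy⟩
    -- otherwise the map is locally injective
    exfalso
    apply hnot
    have hder1 : HasStrictDerivAt (fun x => x ^ n * A.eval x / B.eval x) _ z :=
      (((hasStrictDerivAt_pow n z).mul (A.hasStrictDerivAt z)).fun_div (B.hasStrictDerivAt z) hBz)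
    have hne1 : ((n * z ^ (n - 1) * A.eval z + z ^ n * A.derivative.eval z) * B.eval z
        - z ^ n * A.eval z * B.derivative.eval z) / B.eval z ^ 2 ≠ 0 := by
      apply div_ne_zero _ (pow_ne_zero _ hBz)
      have e1 : (n * z ^ (n - 1) * A.eval z + z ^ n * A.derivative.eval z) * B.eval z
          - z ^ n * A.eval z * B.derivative.eval z
          = z ^ (n - 1) * (n * (A.eval z * B.eval z) + z * (A.derivative.eval z * B.eval z
            - A.eval z * B.derivative.eval z)) := by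
        obtain ⟨m, rfl⟩ : ∃ m, n = m + 1 := ⟨n - 1, by omega⟩
        simp only [Nat.add_sub_cancel]
        ring
      rw [e1]
      exact mul_ne_zero (pow_ne_zero _ hz0) hcr
    obtain ⟨U1, hU1, hinj1⟩ := injOn_of_deriv hder1 hne1
    have hder2 := (P.hasStrictDerivAt y).fun_div (Q.hasStrictDerivAt y) hQy
    have hne2 : (P.derivative.eval y * Q.eval y - P.eval y * Q.derivative.eval y) /
        (Q.eval y) ^ 2 ≠ 0 := by
      apply div_ne_zero _ (pow_ne_zero _ hQy)
      have e1 : P.derivative.eval y * Q.eval y - P.eval y * Q.derivative.eval y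
          = (wro P Q).eval y := by
        rw [wro]; simp
      rw [e1]
      exact hWy
    obtain ⟨U2, hU2, hinj2⟩ := injOn_of_deriv hder2 hne2
    have hcont1 : ContinuousAt (fun x => x ^ n * A.eval x / B.eval x) z :=
      hder1.hasDerivAt.continuousAt
    have hV : {x : ℂ | B.eval x ≠ 0} ∈ 𝓝 z :=
      (isOpen_ne_fun B.continuous continuous_const).mem_nhds hBz
    have hV2 : {x : ℂ | Q.eval x ≠ 0} ∈ 𝓝 y :=
      (isOpen_ne_fun Q.continuous continuous_const).mem_nhds hQy
    have hpre := hcont1.preimage_mem_nhds (inter_mem hU2 hV2)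
    refine ⟨(fun x : ℂ => (x : OnePoint ℂ)) '' (U1 ∩ ({x : ℂ | B.eval x ≠ 0} ∩
      (fun x => x ^ n * A.eval x / B.eval x) ⁻¹' (U2 ∩ {x : ℂ | Q.eval x ≠ 0}))), ?_, ?_⟩
    · exact (OnePoint.isOpenEmbedding_coe (X := ℂ)).isOpenMap.image_mem_nhds
        (inter_mem hU1 (inter_mem hV hpre))
    · have hval : ∀ x : ℂ, B.eval x ≠ 0 → Q.eval (x ^ n * A.eval x / B.eval x) ≠ 0 →
          R (g (x : OnePoint ℂ)) = ((P.eval (x ^ n * A.eval x / B.eval x)
            / Q.eval (x ^ n * A.eval x / B.eval x) : ℂ) : OnePoint ℂ) := by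
        intro x h1 h2
        rw [hg.fin, pr_ne h1]
        exact hR.eval _ h2
      rintro _ ⟨x, ⟨hx1, hx2, hx3, hx4⟩, rfl⟩ _ ⟨x', ⟨hx1', hx2', hx3', hx4'⟩, rfl⟩ hxx
      simp only at hxx
      rw [hval x hx2 hx4, hval x' hx2' hx4', OnePoint.coe_eq_coe] at hxx
      have h1 := hinj2 hx3 hx3' hxx
      have h2 := hinj1 hx1 hx1' h1
      rw [h2]

end Pool.Agent.R145.ZN
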