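import Mathlib
import Pool.Agent.R145.ZN.Fin

/-!
# Hyperbolicity of `s R(z ^ n G(l z))` for arbitrary rational functions `R` and `G` and large `n`

Let `R`, `G` be rational functions, `R` not constant, `G(0) ≠ 0, ∞`. For all complex `l ≠ 0` outside
finitely many circles around `0`, and then for all complex `s ≠ 0` outside finitely many circles,
the rational map `s R(z ^ n G(l z))` is hyperbolic for all large `n`. So for large `n` every map
`R(z ^ n G(z))` is close to hyperbolic maps of the same degree, of the same form. The case `G = 1` is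
the family of the starting result `PowerFamilies`; the case `R(y) = y` is the class of the maps
all but a bounded number of whose zeros and poles are at `0` and `∞`.

* `Pool.Agent.R145.ZN.Crit`: the critical points of `z ^ n G(z)` outside `0` and `∞` are at a distance of
  order `1 / n` from the zeros and poles of `G`, and their images tend exponentially fast to `0` or
  `∞`, for every multiplicity of the zeros and poles.
* `Pool.Agent.R145.ZN.{Contr, Sphere, Main}`: in charts at the points `R(0)` and `R(∞)` the map is a
  contraction of a small disc into one of the two discs; all critical orbits enter these discs after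
  at most two steps.
* `Pool.Agent.R145.ZN.Fin`: the exceptional circles, degrees.
-/

set_option autoImplicit false

open Set Filter Topology

namespace Pool.Agent.Results.MP_8f2e1c_an.PowersInside

open Pool.Agent.R145.ZN (comb)

/-- `P / Q` is in lowest terms and every critical point (point of the Riemann sphere where the map
is not locally injective) has an orbit converging to an attracting periodic cycle. This is word
for word the condition of the frozen statement `S05373`. -/
def Hyperbolic (P Q : Polynomial ℂ) : Prop :=
  IsCoprime P Q ∧ ∃ f : OnePoint ℂ → OnePoint ℂ, Continuous f ∧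
    (∀ z : ℂ, Q.eval z ≠ 0 →
      f (OnePoint.some z) = OnePoint.some (P.eval z / Q.eval z)) ∧
    ∀ c : OnePoint ℂ, (¬ ∃ U ∈ nhds c, Set.InjOn f U) →
      ∃ z : OnePoint ℂ, ∃ n : ℕ, 0 < n ∧ f^[n] z = z ∧
        (∃ U ∈ nhds z, ∀ w ∈ U,
          Filter.Tendsto (fun k : ℕ => f^[n * k] w) Filter.atTop (nhds z)) ∧
        Filter.Tendsto (fun k : ℕ => f^[n * k] c) Filter.atTop (nhds z)

/-- Let `R = P / Q` and `G = A / B` be rational functions in lowest terms, `R` of degree `D ≥ 1` and
`G(0) ≠ 0, ∞`. There is a finite set `L` of radii, and for every complex `l ≠ 0` with `|l|` not in `L`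
there is a finite set `S` of radii, such that for every complex `s ≠ 0` with `|s|` not in `S` and for all
large `n` the rational map `s R(z ^ n G(l z))` has degree `D (n + deg A)` and is hyperbolic. Its
numerator and denominator are the polynomials `s ∑ P_k U ^ k V ^ (D - k)` and
`∑ Q_k U ^ k V ^ (D - k)`, where `U = z ^ n A(l z)` and `V = B(l z)`. -/
theorem result (P Q A B : Polynomial ℂ) (hPQ : IsCoprime P Q)
    (hD : 1 ≤ max P.natDegree Q.natDegree) (hAB : IsCoprime A B) (hA : A.eval 0 ≠ 0)
    (hB : B.eval 0 ≠ 0) :
    ∃ L : Set ℝ, L.Finite ∧ ∀ l : ℂ, l ≠ 0 → ‖l‖ ∉ L → ∃ S : Set ℝ, S.Finite ∧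
      ∀ s : ℂ, s ≠ 0 → ‖s‖ ∉ S → ∃ n₀ : ℕ, ∀ n : ℕ, n₀ ≤ n → ∀ U V : Polynomial ℂ,
        U = Polynomial.X ^ n * A.comp (Polynomial.C l * Polynomial.X) →
        V = B.comp (Polynomial.C l * Polynomial.X) →
        max (comb (Polynomial.C s * P) (max P.natDegree Q.natDegree) U V).natDegree
            (comb Q (max P.natDegree Q.natDegree) U V).natDegree
          = max P.natDegree Q.natDegree * (n + A.natDegree) ∧
        Hyperbolic (comb (Polynomial.C s * P) (max P.natDegree Q.natDegree) U V)
          (comb Q (max P.natDegree Q.natDegree) U V) := by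
  obtain ⟨L, hL, h⟩ := Pool.Agent.R145.ZN.family hPQ hD hAB hA hB
  refine ⟨L, hL, fun l hl hlL => ?_⟩
  obtain ⟨S, hS, h1⟩ := h l hl hlL
  refine ⟨S, hS, fun s hs hsS => ?_⟩
  obtain ⟨n₀, hn₀⟩ := h1 s hs hsS
  refine ⟨n₀, fun n hn U V hU hV => ?_⟩
  rw [hU, hV]
  exact hn₀ n hn

end Pool.Agent.Results.MP_8f2e1c_an.PowersInside
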