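import Pool.Agent.R145.ZN.Contr
import Pool.Agent.R145.ZN.Crit
import Pool.Agent.H762R2.RtD

/-!
The map `z ^ n A(z) / B(z)` of the sphere, charts.
-/

set_option autoImplicit false

open Set Filter Topology Polynomial
open scoped OnePoint

namespace Pool.Agent.R145.ZN

open Pool.Agent.Helper114.Herman Pool.Agent.Helper114.Konig Pool.Agent.H762R2.Rt

/-- `g` is the map `z ^ n A(z) / B(z)` of the sphere. -/
structure GF (A B : ℂ[X]) (n : ℕ) (g : OnePoint ℂ → OnePoint ℂ) : Prop where
  cont : Continuous g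
  fin : ∀ z : ℂ, g (z : OnePoint ℂ) = pr (z ^ n * A.eval z) (B.eval z)
  inf : ∀ x : ℂ, g (pr 1 x) = pr (hom A A.natDegree 1 x)
    (x ^ (n + A.natDegree - B.natDegree) * hom B B.natDegree 1 x)

theorem coprime_of_roots {P Q : ℂ[X]} (h : ∀ z : ℂ, P.eval z ≠ 0 ∨ Q.eval z ≠ 0) :
    IsCoprime P Q := by
  refine (Polynomial.isCoprime_iff_aeval_ne_zero_of_isAlgClosed ℂ ℂ P Q).2 fun a => ?_
  simpa using h a

theorem roots_of_coprime {P Q : ℂ[X]} (h : IsCoprime P Q) (z : ℂ) :
    P.eval z ≠ 0 ∨ Q.eval z ≠ 0 := by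
  by_contra hcon
  push Not at hcon
  obtain ⟨a, b, hab⟩ := h
  have := congrArg (Polynomial.eval z) hab
  simp [hcon.1, hcon.2] at this

theorem hom_z_one {P : ℂ[X]} {d : ℕ} (h : P.natDegree ≤ d) (z : ℂ) : hom P d z 1 = P.eval z := by
  rw [hom_ne h one_ne_zero, one_pow, one_mul, div_one]

theorem gf_exists {A B : ℂ[X]} (hc : IsCoprime A B) (hA : A ≠ 0) (hB : B.eval 0 ≠ 0) {n : ℕ}
    (hn : B.natDegree < n) : ∃ g, GF A B n g := by
  have hB0 : B ≠ 0 := by rintro rfl; simp at hB
  have hcop : IsCoprime (X ^ n * A) B := by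
    refine coprime_of_roots fun z => ?_
    rcases eq_or_ne z 0 with rfl | hz
    · exact Or.inr hB
    · rcases roots_of_coprime hc z with h | h
      · left
        rw [eval_mul, eval_pow, eval_X]
        exact mul_ne_zero (pow_ne_zero _ hz) h
      · exact Or.inr h
  obtain ⟨f, hf, -⟩ := exists_isRat hcop hB0
  have hdA : (X ^ n * A).natDegree = A.natDegree + n := natDegree_X_pow_mul n hA
  have hd : A.natDegree + n = max (X ^ n * A).natDegree B.natDegree := by
    rw [hdA, max_eq_left (by omega)]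
  have hd0 : 0 < A.natDegree + n := by omega
  refine ⟨f, hf.cont, fun z => ?_, fun x => ?_⟩
  · have h1 := rat_formula hf hd hd0 (u := z) (v := 1) (Or.inr one_ne_zero)
    rw [pr_one, hom_z_one hdA.le, hom_z_one (by omega), eval_mul, eval_pow, eval_X] at h1
    exact h1
  · have h1 := rat_formula hf hd hd0 (u := 1) (v := x) (Or.inl one_ne_zero)
    rw [h1]
    by_cases hx : x = 0
    · subst hx
      rw [hom_zero, hom_zero, hom_zero, hom_zero]
      have e1 : (X ^ n * A).coeff (A.natDegree + n) = A.coeff A.natDegree := coeff_X_pow_mul _ _ _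
      have e2 : B.coeff (A.natDegree + n) = 0 := coeff_eq_zero_of_natDegree_lt (by omega)
      have e3 : (0 : ℂ) ^ (n + A.natDegree - B.natDegree) = 0 := zero_pow (by omega)
      rw [e1, e2, e3]
      simp
    · rw [hom_ne hdA.le hx, hom_ne (by omega : B.natDegree ≤ A.natDegree + n) hx,
        hom_ne le_rfl hx, hom_ne le_rfl hx, eval_mul, eval_pow, eval_X]
      congr 1
      · rw [pow_add, one_div, inv_pow]
        field_simp
      · rw [← mul_assoc, ← pow_add]
        congr 2
        omega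

/-- the two sides `0` and `∞` of the image of `z ^ n A / B` -/
noncomputable def E (j : Bool) (y : ℂ) : OnePoint ℂ := if j then pr 1 y else pr y 1

/-- homogeneous polynomial near `0` (`j = false`) or `∞` (`j = true`) -/
noncomputable def Nn (P : ℂ[X]) (D : ℕ) (j : Bool) (y : ℂ) : ℂ :=
  if j then hom P D 1 y else hom P D y 1

theorem Nn_contDiff (P : ℂ[X]) (D : ℕ) (j : Bool) : ContDiff ℂ 1 (Nn P D j) := by
  cases j
  · show ContDiff ℂ 1 fun y => hom P D y 1
    unfold hom
    fun_prop
  · show ContDiff ℂ 1 fun y => hom P D 1 y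
    unfold hom
    fun_prop

/-- chart at the point `R(0)` (`j = false`) or `R(∞)` (`j = true`) -/
noncomputable def psi (P Q : ℂ[X]) (D : ℕ) (j : Bool) (x : ℂ) : OnePoint ℂ :=
  if Nn Q D j 0 = 0 then pr 1 x else pr (Nn P D j 0 / Nn Q D j 0 + x) 1

/-- `R` in this chart -/
noncomputable def kap (P Q : ℂ[X]) (D : ℕ) (j : Bool) (y : ℂ) : ℂ :=
  if Nn Q D j 0 = 0 then Nn Q D j y / Nn P D j y
  else Nn P D j y / Nn Q D j y - Nn P D j 0 / Nn Q D j 0

theorem kap_spec {P Q : ℂ[X]} {D : ℕ} {j : Bool} (h : Nn P D j 0 ≠ 0 ∨ Nn Q D j 0 ≠ 0) :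
    ContDiffAt ℂ 1 (kap P Q D j) 0 ∧ kap P Q D j 0 = 0 ∧
      ∀ᶠ y in 𝓝 (0 : ℂ), pr (Nn P D j y) (Nn Q D j y) = psi P Q D j (kap P Q D j y) := by
  have cP := Nn_contDiff P D j
  have cQ := Nn_contDiff Q D j
  by_cases hQ : Nn Q D j 0 = 0
  · have hP : Nn P D j 0 ≠ 0 := h.resolve_right (not_not_intro hQ)
    have e : kap P Q D j = fun y => Nn Q D j y / Nn P D j y := by
      funext y; simp only [kap, if_pos hQ]
    refine ⟨?_, ?_, ?_⟩
    · rw [e]
      exact cQ.contDiffAt.div cP.contDiffAt hP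
    · rw [e]; simp [hQ]
    · filter_upwards [cP.continuous.continuousAt.eventually_ne hP] with y hy
      simp only [psi, if_pos hQ, e]
      have := pr_smul (u := 1) (v := Nn Q D j y / Nn P D j y) hy
      rw [mul_one, mul_div_cancel₀ _ hy] at this
      exact this
  · have e : kap P Q D j = fun y => Nn P D j y / Nn Q D j y - Nn P D j 0 / Nn Q D j 0 := by
      funext y; simp only [kap, if_neg hQ]
    refine ⟨?_, ?_, ?_⟩
    · rw [e]
      exact (cP.contDiffAt.div cQ.contDiffAt hQ).sub contDiffAt_const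
    · rw [e]; simp
    · filter_upwards [cQ.continuous.continuousAt.eventually_ne hQ] with y hy
      simp only [psi, if_neg hQ, e]
      rw [pr_ne hy, pr_one]
      congr 1
      ring

theorem pr_one_left (x : ℂ) : pr 1 x = sinv (x : OnePoint ℂ) := by
  rw [← pr_one x, sinv_pr (Or.inr one_ne_zero)]

theorem psi_cont (P Q : ℂ[X]) (D : ℕ) (j : Bool) : Continuous (psi P Q D j) := by
  by_cases hQ : Nn Q D j 0 = 0
  · have e : psi P Q D j = fun x : ℂ => sinv (x : OnePoint ℂ) := by
      funext x; simp only [psi, if_pos hQ, pr_one_left]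
    rw [e]
    exact continuous_sinv.comp (OnePoint.continuous_coe (X := ℂ))
  · have e : psi P Q D j = fun x : ℂ => ((Nn P D j 0 / Nn Q D j 0 + x : ℂ) : OnePoint ℂ) := by
      funext x; simp only [psi, if_neg hQ, pr_one]
    rw [e]
    exact (OnePoint.continuous_coe (X := ℂ)).comp (continuous_const.add continuous_id)

theorem psi_open (P Q : ℂ[X]) (D : ℕ) (j : Bool) : IsOpenMap (psi P Q D j) := by
  by_cases hQ : Nn Q D j 0 = 0
  · have e : psi P Q D j = fun x : ℂ => sinv (x : OnePoint ℂ) := by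
      funext x; simp only [psi, if_pos hQ, pr_one_left]
    rw [e]
    exact sinvHomeo.isOpenMap.comp (OnePoint.isOpenEmbedding_coe (X := ℂ)).isOpenMap
  · have e : psi P Q D j = fun x : ℂ => ((Nn P D j 0 / Nn Q D j 0 + x : ℂ) : OnePoint ℂ) := by
      funext x; simp only [psi, if_neg hQ, pr_one]
    rw [e]
    exact (OnePoint.isOpenEmbedding_coe (X := ℂ)).isOpenMap.comp
      (isOpenMap_add_left (Nn P D j 0 / Nn Q D j 0))

theorem hom_lead_ne {A : ℂ[X]} (hA : A ≠ 0) : hom A A.natDegree 1 0 ≠ 0 := by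
  rw [hom_zero, one_pow, mul_one]
  exact leadingCoeff_ne_zero.2 hA

/-- `z ^ n A / B` in the chart at `R(0)` or `R(∞)` -/
theorem side {P Q A B : ℂ[X]} {D : ℕ} {j : Bool} (hA : A ≠ 0)
    (hgen : Nn Q D j 0 ≠ 0 → ‖Nn P D j 0 / Nn Q D j 0‖ ≠ 1 ∧
      A.eval (Nn P D j 0 / Nn Q D j 0) ≠ 0 ∧ B.eval (Nn P D j 0 / Nn Q D j 0) ≠ 0) :
    ∃ (τ : Bool) (s β : ℂ → ℂ), ContDiffAt ℂ 1 s 0 ∧ ContDiffAt ℂ 1 β 0 ∧ ‖s 0‖ < 1 ∧
      ∀ᶠ x in 𝓝 (0 : ℂ), ∀ (n : ℕ) (g : OnePoint ℂ → OnePoint ℂ), GF A B n g →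
        B.natDegree ≤ n → g (psi P Q D j x) = E τ (s x ^ (n - B.natDegree) * β x) := by
  by_cases hQ : Nn Q D j 0 = 0
  · -- the point is `∞`
    have cA : ContDiff ℂ 1 fun x => hom A A.natDegree 1 x := by unfold hom; fun_prop
    have cB : ContDiff ℂ 1 fun x => hom B B.natDegree 1 x := by unfold hom; fun_prop
    refine ⟨true, fun x => x, fun x => x ^ A.natDegree * hom B B.natDegree 1 x
      / hom A A.natDegree 1 x, contDiffAt_id, ?_, by simp, ?_⟩
    · exact ((contDiffAt_id.pow _).mul cB.contDiffAt).div cA.contDiffAt (hom_lead_ne hA)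
    · filter_upwards [cA.continuous.continuousAt.eventually_ne (hom_lead_ne hA)] with x hx n g hg hn
      have e1 : psi P Q D j x = pr 1 x := by simp only [psi, if_pos hQ]
      rw [e1, hg.inf x]
      simp only [E, if_true]
      have := pr_smul (u := 1) (v := x ^ (n + A.natDegree - B.natDegree) * hom B B.natDegree 1 x
        / hom A A.natDegree 1 x) hx
      rw [mul_one, mul_div_cancel₀ _ hx] at this
      rw [this]
      congr 1
      have e2 : n + A.natDegree - B.natDegree = (n - B.natDegree) + A.natDegree := by omega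
      rw [e2, pow_add]
      ring
  · obtain ⟨h1, hAp, hBp⟩ := hgen hQ
    set p := Nn P D j 0 / Nn Q D j 0 with hp
    have e1 : ∀ x, psi P Q D j x = ((p + x : ℂ) : OnePoint ℂ) := fun x => by
      simp only [psi, if_neg hQ, pr_one]
      rfl
    have c1 : ContDiff ℂ 1 fun x : ℂ => p + x := by fun_prop
    have cA : ContDiff ℂ 1 fun x : ℂ => A.eval (p + x) := (A.differentiable.contDiff (n := 1)).comp c1
    have cB : ContDiff ℂ 1 fun x : ℂ => B.eval (p + x) := (B.differentiable.contDiff (n := 1)).comp c1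
    have hAp' : A.eval (p + 0) ≠ 0 := by rwa [add_zero]
    have hBp' : B.eval (p + 0) ≠ 0 := by rwa [add_zero]
    rcases lt_or_gt_of_ne h1 with h2 | h2
    · refine ⟨false, fun x => p + x, fun x => (p + x) ^ B.natDegree * A.eval (p + x)
        / B.eval (p + x), c1.contDiffAt, ?_, by simpa using h2, ?_⟩
      · exact ((c1.contDiffAt.pow _).mul cA.contDiffAt).div cB.contDiffAt hBp'
      · filter_upwards [cB.continuous.continuousAt.eventually_ne hBp'] with x hx n g hg hn
        rw [e1, hg.fin]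
        simp only [E, Bool.false_eq_true, if_false]
        have := pr_smul (u := (p + x) ^ n * A.eval (p + x) / B.eval (p + x)) (v := 1) hx
        rw [mul_one, mul_div_cancel₀ _ hx] at this
        rw [this]
        congr 1
        have e2 : n = (n - B.natDegree) + B.natDegree := by omega
        conv_lhs => rw [e2, pow_add]
        ring
    · have hp0 : p ≠ 0 := by
        intro h
        rw [h, norm_zero] at h2
        linarith
      have hp0' : p + 0 ≠ 0 := by rwa [add_zero]
      refine ⟨true, fun x => (p + x)⁻¹, fun x => ((p + x)⁻¹) ^ B.natDegree * B.eval (p + x)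
        / A.eval (p + x), c1.contDiffAt.inv hp0', ?_, ?_, ?_⟩
      · exact (((c1.contDiffAt.inv hp0').pow _).mul cB.contDiffAt).div cA.contDiffAt hAp'
      · simp only [add_zero, norm_inv]
        exact inv_lt_one_of_one_lt₀ h2
      · filter_upwards [cA.continuous.continuousAt.eventually_ne hAp',
          c1.continuous.continuousAt.eventually_ne hp0'] with x hx hx0 n g hg hn
        rw [e1, hg.fin]
        simp only [E, if_true]
        have h3 : (p + x) ^ n * A.eval (p + x) ≠ 0 := mul_ne_zero (pow_ne_zero _ hx0) hx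
        have := pr_smul (u := 1) (v := B.eval (p + x) / ((p + x) ^ n * A.eval (p + x))) h3
        rw [mul_one, mul_div_cancel₀ _ h3] at this
        rw [this]
        congr 1
        have e2 : (n - B.natDegree) + B.natDegree = n := by omega
        rw [← mul_div_assoc, ← mul_assoc, ← pow_add, e2, inv_pow]
        field_simp

/-- a point off the unit circle is mapped near `0` or `∞` -/
theorem point_far {A B : ℂ[X]} {v : ℂ} (hv : ‖v‖ ≠ 1) (hA : A.eval v ≠ 0) (hB : B.eval v ≠ 0)
    {η : ℝ} (hη : 0 < η) : ∀ᶠ n : ℕ in atTop, ∀ g, GF A B n g →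
      ∃ j y, ‖y‖ ≤ η ∧ g (v : OnePoint ℂ) = E j y := by
  rcases lt_or_gt_of_ne hv with h | h
  · have h1 : Tendsto (fun n : ℕ => v ^ n * A.eval v / B.eval v) atTop (𝓝 0) := by
      have := ((tendsto_pow_atTop_nhds_zero_of_norm_lt_one h).mul_const (A.eval v)).div_const
        (B.eval v)
      simpa using this
    filter_upwards [(tendsto_zero_iff_norm_tendsto_zero.1 h1).eventually_le_const hη] with n hn g hg
    refine ⟨false, _, hn, ?_⟩
    rw [hg.fin, pr_ne hB]
    simp only [E, Bool.false_eq_true, if_false, pr_one]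
  · have hv0 : v ≠ 0 := by
      intro h0
      rw [h0, norm_zero] at h
      linarith
    have h1 : Tendsto (fun n : ℕ => v⁻¹ ^ n * B.eval v / A.eval v) atTop (𝓝 0) := by
      have h2 : ‖v⁻¹‖ < 1 := by rw [norm_inv]; exact inv_lt_one_of_one_lt₀ h
      have := ((tendsto_pow_atTop_nhds_zero_of_norm_lt_one h2).mul_const (B.eval v)).div_const
        (A.eval v)
      simpa using this
    filter_upwards [(tendsto_zero_iff_norm_tendsto_zero.1 h1).eventually_le_const hη] with n hn g hg
    refine ⟨true, _, hn, ?_⟩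
    rw [hg.fin]
    simp only [E, if_true]
    have h3 : v ^ n * A.eval v ≠ 0 := mul_ne_zero (pow_ne_zero _ hv0) hA
    have := pr_smul (u := 1) (v := v⁻¹ ^ n * B.eval v / A.eval v) h3
    rw [mul_one] at this
    rw [← this]
    congr 1
    rw [inv_pow]
    field_simp

theorem sinks_of_image {f : OnePoint ℂ → OnePoint ℂ} (hf : Continuous f) {c : OnePoint ℂ}
    (h : Sinks f (f c)) : Sinks f c := by
  obtain ⟨z, n, hn, hz, ⟨U, hU, hUt⟩, ht⟩ := h
  obtain ⟨m, rfl⟩ : ∃ m, n = m + 1 := ⟨n - 1, by omega⟩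
  have hfm : Continuous f^[m] := hf.iterate m
  have hfz : f (f^[m] z) = z := by
    rw [← Function.iterate_succ_apply' f m z]
    exact hz
  have hshift : ∀ (w : OnePoint ℂ) (k : ℕ), f^[(m + 1) * (k + 1)] w
      = f^[m] (f^[(m + 1) * k] (f w)) := by
    intro w k
    rw [← Function.iterate_add_apply, ← Function.iterate_succ_apply]
    have e : (m + 1) * (k + 1) = (m + (m + 1) * k).succ := by
      rw [Nat.succ_eq_add_one]; ring
    rw [e]
  refine ⟨f^[m] z, m + 1, hn, ?_, ⟨f ⁻¹' U, ?_, fun w hw => ?_⟩, ?_⟩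
  · rw [Function.iterate_succ_apply, hfz]
  · exact hf.continuousAt.preimage_mem_nhds (by rw [hfz]; exact hU)
  · have h1 := (hfm.tendsto z).comp (hUt (f w) hw)
    rw [← tendsto_add_atTop_iff_nat 1]
    refine h1.congr fun k => (hshift w k).symm
  · have h1 := (hfm.tendsto z).comp ht
    rw [← tendsto_add_atTop_iff_nat 1]
    refine h1.congr fun k => (hshift c k).symm

end Pool.Agent.R145.ZN
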